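import Pool.Agent.Helper56.RZ.GoalsA

/-!
# Project RZ (MP_f32c9c_an), packet CS
-/

set_option autoImplicit false

open Set Filter Topology MeasureTheory

open scoped ContDiff

namespace Pool.Agent.Helper39.RZ

open Pool.Agent.Helper56.RZ

/-- a continuous map on a compact space is bounded -/
theorem exists_bd {X : Type} [MetricSpace X] [CompactSpace X] {K : ℕ} {g : X → End K}
    (hg : Continuous g) : ∃ R : ℝ, 0 < R ∧ ∀ x, ‖g x‖ ≤ R := by
  obtain ⟨R, hR⟩ := isCompact_univ.exists_bound_of_continuousOn hg.continuousOn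
  exact ⟨max R 1, lt_max_of_lt_right one_pos, fun x => (hR x (mem_univ x)).trans (le_max_left _ _)⟩

/-- uniform continuity, endomorphisms -/
theorem exists_uc {X : Type} [MetricSpace X] [CompactSpace X] {K : ℕ} {g : X → End K}
    (hg : Continuous g) {ε : ℝ} (hε : 0 < ε) :
    ∃ δ : ℝ, 0 < δ ∧ ∀ x y, dist x y ≤ δ → ‖g x - g y‖ ≤ ε := by
  have h := CompactSpace.uniformContinuous_of_continuous hg
  obtain ⟨δ, hδ, h1⟩ := Metric.uniformContinuous_iff.1 h ε hε
  refine ⟨δ / 2, half_pos hδ, fun x y hxy => ?_⟩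
  rw [← dist_eq_norm]
  exact (h1 (lt_of_le_of_lt hxy (half_lt_self hδ))).le

/-- uniform continuity, points -/
theorem exists_uc' {X : Type} [MetricSpace X] [CompactSpace X] {g : X → X}
    (hg : Continuous g) {ε : ℝ} (hε : 0 < ε) :
    ∃ δ : ℝ, 0 < δ ∧ ∀ x y, dist x y ≤ δ → dist (g x) (g y) ≤ ε := by
  have h := CompactSpace.uniformContinuous_of_continuous hg
  obtain ⟨δ, hδ, h1⟩ := Metric.uniformContinuous_iff.1 h ε hε
  exact ⟨δ / 2, half_pos hδ, fun x y hxy => (h1 (lt_of_le_of_lt hxy (half_lt_self hδ))).le⟩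

theorem close_inv {X : Type} [MetricSpace X] {K : ℕ} {C C' : Coc X K} {δ : ℝ}
    (h : Close C C' δ) : Close C.inv C'.inv δ :=
  ⟨h.1, fun x => ⟨(h.2 x).2.1, (h.2 x).1, (h.2 x).2.2.2, (h.2 x).2.2.1⟩⟩

theorem close_mono {X : Type} [MetricSpace X] {K : ℕ} {C C' : Coc X K} {δ δ' : ℝ}
    (h : Close C C' δ) (hd : δ ≤ δ') : Close C C' δ' :=
  ⟨h.1, fun x => ⟨(h.2 x).1.trans hd, (h.2 x).2.1.trans hd, (h.2 x).2.2.1.trans hd,
    (h.2 x).2.2.2.trans hd⟩⟩

theorem cl : StmtCL := by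
  intro X _ _ K C ε hε
  obtain ⟨RA, hRA, hA⟩ := exists_bd C.contA
  obtain ⟨RB, hRB, hB⟩ := exists_bd C.contB
  obtain ⟨RT, hRT, hT⟩ := exists_bd C.contT
  obtain ⟨δ1, hδ1, h1⟩ := exists_uc' C.f.continuous hε
  have hε2 : 0 < ε / (2 * (RT + 1)) := by positivity
  obtain ⟨δ2, hδ2, h2⟩ := exists_uc C.contA hε2
  have hp3 : 0 < ε / (2 * RA) := by positivity
  have hp4 : 0 < ε / RB := by positivity
  refine ⟨min (min (min δ1 δ2) (min ε 1)) (min (ε / (2 * RA)) (ε / RB)), by positivity, ?_⟩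
  intro H e hN
  set δ := min (min (min δ1 δ2) (min ε 1)) (min (ε / (2 * RA)) (ε / RB)) with hδdef
  have d1 : δ ≤ δ1 := (min_le_left _ _).trans ((min_le_left _ _).trans (min_le_left _ _))
  have d2 : δ ≤ δ2 := (min_le_left _ _).trans ((min_le_left _ _).trans (min_le_right _ _))
  have d3 : δ ≤ ε := (min_le_left _ _).trans ((min_le_right _ _).trans (min_le_left _ _))
  have d4 : δ ≤ 1 := (min_le_left _ _).trans ((min_le_right _ _).trans (min_le_right _ _))
  have d5 : δ ≤ ε / (2 * RA) := (min_le_right _ _).trans (min_le_left _ _)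
  have d6 : δ ≤ ε / RB := (min_le_right _ _).trans (min_le_right _ _)
  have main : Close C (C.comp H e) ε := by
    refine ⟨rfl, fun x => ⟨?_, ?_, ?_, ?_⟩⟩
    · exact h1 _ _ ((hN x).1.trans d1)
    · change dist (H.f.symm (C.f.symm x)) (C.f.symm x) ≤ ε
      have h3 := (hN (H.f.symm (C.f.symm x))).1
      rw [Homeomorph.apply_symm_apply, dist_comm] at h3
      exact h3.trans d3
    · change ‖C.A (H.f x) * H.A x - C.A x‖ ≤ ε
      have h3 : C.A (H.f x) * H.A x - C.A x =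
          (C.A (H.f x) - C.A x) * H.A x + C.A x * (H.A x - H.T x) := by
        rw [mul_sub, e, C.AT, sub_mul]
        abel
      have h4 : ‖H.A x‖ ≤ RT + 1 := by
        have h5 : H.A x = (H.A x - H.T x) + H.T x := by abel
        rw [h5]
        refine (norm_add_le _ _).trans ?_
        have h6 := ((hN x).2.1).trans d4
        have h7 : ‖H.T x‖ ≤ RT := by rw [e]; exact hT x
        linarith
      rw [h3]
      refine (norm_add_le _ _).trans ?_
      have h5 : ‖(C.A (H.f x) - C.A x) * H.A x‖ ≤ ε / (2 * (RT + 1)) * (RT + 1) :=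
        (norm_mul_le _ _).trans (mul_le_mul (h2 _ _ ((hN x).1.trans d2)) h4 (norm_nonneg _) hε2.le)
      have h6 : ‖C.A x * (H.A x - H.T x)‖ ≤ RA * (ε / (2 * RA)) :=
        (norm_mul_le _ _).trans (mul_le_mul (hA x) ((hN x).2.1.trans d5) (norm_nonneg _) hRA.le)
      have h7 : ε / (2 * (RT + 1)) * (RT + 1) = ε / 2 := by field_simp
      have h8 : RA * (ε / (2 * RA)) = ε / 2 := by field_simp
      linarith
    · change ‖H.B (C.f.symm x) * C.B x - C.B x‖ ≤ ε
      have h3 : H.B (C.f.symm x) * C.B x - C.B x =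
          (H.B (C.f.symm x) - H.T (C.f.symm x)) * C.B x := by
        rw [sub_mul, e, C.TB]
      rw [h3]
      have h5 : ‖(H.B (C.f.symm x) - H.T (C.f.symm x)) * C.B x‖ ≤ ε / RB * RB :=
        (norm_mul_le _ _).trans (mul_le_mul ((hN _).2.2.trans d6) (hB x) (norm_nonneg _) hp4.le)
      have h6 : ε / RB * RB = ε := by field_simp
      linarith
  exact ⟨main, close_inv main⟩

theorem cont_iter {X : Type} [TopologicalSpace X] {K : ℕ} (C : Coc X K) (n : ℕ) :
    Continuous (C.f^[n]) := C.f.continuous.iterate n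

theorem cont_An {X : Type} [TopologicalSpace X] {K : ℕ} (C : Coc X K) (n : ℕ) :
    Continuous (C.An n) := by
  induction n with
  | zero => exact C.contT
  | succ n ih => exact (C.contA.comp (cont_iter C n)).mul ih

/-- the iterates of a close cocycle are close -/
theorem close_iter {X : Type} [MetricSpace X] [CompactSpace X] {K : ℕ} (C : Coc X K) (n : ℕ) :
    ∀ ε : ℝ, 0 < ε → ∃ δ : ℝ, 0 < δ ∧ ∀ C' : Coc X K, Close C C' δ → ∀ x,
      dist (C'.f^[n] x) (C.f^[n] x) ≤ ε ∧ ‖C'.An n x - C.An n x‖ ≤ ε := by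
  induction n with
  | zero =>
    intro ε hε
    refine ⟨1, one_pos, fun C' h x => ⟨?_, ?_⟩⟩
    · simpa using hε.le
    · change ‖C'.T x - C.T x‖ ≤ ε
      rw [h.1]
      simpa using hε.le
  | succ n ih =>
    intro ε hε
    obtain ⟨RA, hRA, hA⟩ := exists_bd C.contA
    obtain ⟨RN, hRN, hN⟩ := exists_bd (cont_An C n)
    obtain ⟨δ1, hδ1, h1⟩ := exists_uc' C.f.continuous (half_pos hε)
    have hp2 : 0 < ε / (4 * (RN + 1)) := by positivity
    have hp3 : 0 < ε / (4 * RA) := by positivity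
    obtain ⟨δ2, hδ2, h2⟩ := exists_uc C.contA hp2
    obtain ⟨δ3, hδ3, h3⟩ := ih (min (min δ1 δ2) (min 1 (ε / (4 * RA)))) (by positivity)
    refine ⟨min δ3 (min (ε / 2) (ε / (4 * (RN + 1)))), by positivity, fun C' hC x => ?_⟩
    have e1 : Close C C' δ3 := close_mono hC (min_le_left _ _)
    obtain ⟨h4, h5⟩ := h3 C' e1 x
    have h4a : dist (C'.f^[n] x) (C.f^[n] x) ≤ δ1 :=
      h4.trans ((min_le_left _ _).trans (min_le_left _ _))
    have h4b : dist (C'.f^[n] x) (C.f^[n] x) ≤ δ2 :=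
      h4.trans ((min_le_left _ _).trans (min_le_right _ _))
    have h5a : ‖C'.An n x - C.An n x‖ ≤ 1 := h5.trans ((min_le_right _ _).trans (min_le_left _ _))
    have h5b : ‖C'.An n x - C.An n x‖ ≤ ε / (4 * RA) :=
      h5.trans ((min_le_right _ _).trans (min_le_right _ _))
    have h6 := hC.2 (C'.f^[n] x)
    have h6a : dist (C'.f (C'.f^[n] x)) (C.f (C'.f^[n] x)) ≤ ε / 2 :=
      h6.1.trans ((min_le_right _ _).trans (min_le_left _ _))
    have h6b : ‖C'.A (C'.f^[n] x) - C.A (C'.f^[n] x)‖ ≤ ε / (4 * (RN + 1)) :=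
      h6.2.2.1.trans ((min_le_right _ _).trans (min_le_right _ _))
    refine ⟨?_, ?_⟩
    · rw [Function.iterate_succ_apply', Function.iterate_succ_apply']
      refine (dist_triangle _ (C.f (C'.f^[n] x)) _).trans ?_
      have h7 := h1 _ _ h4a
      linarith
    · change ‖C'.A (C'.f^[n] x) * C'.An n x - C.A (C.f^[n] x) * C.An n x‖ ≤ ε
      have h8 : ‖C'.An n x‖ ≤ RN + 1 := by
        have h9 : C'.An n x = (C'.An n x - C.An n x) + C.An n x := by abel
        rw [h9]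
        refine (norm_add_le _ _).trans ?_
        have := hN x
        linarith
      have h9 : C'.A (C'.f^[n] x) * C'.An n x - C.A (C.f^[n] x) * C.An n x =
          (C'.A (C'.f^[n] x) - C.A (C'.f^[n] x)) * C'.An n x +
          (C.A (C'.f^[n] x) - C.A (C.f^[n] x)) * C'.An n x +
          C.A (C.f^[n] x) * (C'.An n x - C.An n x) := by
        simp only [sub_mul, mul_sub]
        abel
      rw [h9]
      refine (norm_add₃_le).trans ?_
      have g1 : ‖(C'.A (C'.f^[n] x) - C.A (C'.f^[n] x)) * C'.An n x‖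
          ≤ ε / (4 * (RN + 1)) * (RN + 1) :=
        (norm_mul_le _ _).trans (mul_le_mul h6b h8 (norm_nonneg _) hp2.le)
      have g2 : ‖(C.A (C'.f^[n] x) - C.A (C.f^[n] x)) * C'.An n x‖
          ≤ ε / (4 * (RN + 1)) * (RN + 1) :=
        (norm_mul_le _ _).trans (mul_le_mul (h2 _ _ h4b) h8 (norm_nonneg _) hp2.le)
      have g3 : ‖C.A (C.f^[n] x) * (C'.An n x - C.An n x)‖ ≤ RA * (ε / (4 * RA)) :=
        (norm_mul_le _ _).trans (mul_le_mul (hA _) h5b (norm_nonneg _) hRA.le)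
      have g4 : ε / (4 * (RN + 1)) * (RN + 1) = ε / 4 := by field_simp
      have g5 : RA * (ε / (4 * RA)) = ε / 4 := by field_simp
      linarith

theorem cs : StmtCS := by
  intro X _ _ K C F G _ hcontr
  obtain ⟨n, l0, hl0, hl1, hc⟩ := hcontr
  obtain ⟨R1, hR1, h1⟩ := exists_bd (cont_An C n)
  obtain ⟨R2, hR2, h2⟩ := exists_bd (cont_An C.inv n)
  set η : ℝ := min 1 ((1 - l0) / (2 * (R1 + R2 + 1))) with hη
  have hq : 0 < (1 - l0) / (2 * (R1 + R2 + 1)) := by
    apply div_pos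
    · linarith
    · positivity
  have hηpos : 0 < η := lt_min one_pos hq
  obtain ⟨δ0, hδ0, h0⟩ := exists_uc (cont_An C.inv n) (half_pos hηpos)
  obtain ⟨δ1, hδ1, h3⟩ := close_iter C n (min δ0 η) (lt_min hδ0 hηpos)
  obtain ⟨δ2, hδ2, h4⟩ := close_iter C.inv n (η / 2) (half_pos hηpos)
  refine ⟨min δ1 δ2, (l0 + 1) / 2, n, lt_min hδ1 hδ2, by linarith, by linarith, ?_⟩
  intro C' hC x s hs
  obtain ⟨h5, h6⟩ := h3 C' (close_mono hC (min_le_left _ _)) x
  have h7 := (h4 C'.inv (close_inv (close_mono hC (min_le_right _ _))) (C'.f^[n] x)).2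
  have h8 := h0 _ _ (h5.trans (min_le_left _ _))
  have h6' : ‖C'.An n x - C.An n x‖ ≤ η := h6.trans (min_le_right _ _)
  have h9 : ‖C'.inv.An n (C'.f^[n] x) - C.inv.An n (C.f^[n] x)‖ ≤ η := by
    have e1 : C'.inv.An n (C'.f^[n] x) - C.inv.An n (C.f^[n] x) =
      (C'.inv.An n (C'.f^[n] x) - C.inv.An n (C'.f^[n] x)) +
      (C.inv.An n (C'.f^[n] x) - C.inv.An n (C.f^[n] x)) := by abel
    rw [e1]
    refine (norm_add_le _ _).trans ?_
    linarith
  have h10 : ‖C'.inv.An n (C'.f^[n] x)‖ ≤ R2 + 1 := by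
    have e1 : C'.inv.An n (C'.f^[n] x) =
      (C'.inv.An n (C'.f^[n] x) - C.inv.An n (C.f^[n] x)) + C.inv.An n (C.f^[n] x) := by abel
    rw [e1]
    refine (norm_add_le _ _).trans ?_
    have e2 := h2 (C.f^[n] x)
    have e3 : η ≤ 1 := min_le_left _ _
    linarith
  have h11 : C'.An n x * s * C'.inv.An n (C'.f^[n] x) =
      C.An n x * s * C.inv.An n (C.f^[n] x) +
      ((C'.An n x - C.An n x) * s * C'.inv.An n (C'.f^[n] x) +
      C.An n x * s * (C'.inv.An n (C'.f^[n] x) - C.inv.An n (C.f^[n] x))) := by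
    simp only [sub_mul, mul_sub]
    abel
  rw [h11]
  refine (norm_add_le _ _).trans ?_
  have g1 := hc x s hs
  have g2 : ‖(C'.An n x - C.An n x) * s * C'.inv.An n (C'.f^[n] x)‖ ≤ η * ‖s‖ * (R2 + 1) :=
    (norm_mul_le _ _).trans (mul_le_mul ((norm_mul_le _ _).trans
      (mul_le_mul_of_nonneg_right h6' (norm_nonneg _))) h10 (norm_nonneg _) (by positivity))
  have g3 : ‖C.An n x * s * (C'.inv.An n (C'.f^[n] x) - C.inv.An n (C.f^[n] x))‖
      ≤ R1 * ‖s‖ * η :=
    (norm_mul_le _ _).trans (mul_le_mul ((norm_mul_le _ _).trans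
      (mul_le_mul_of_nonneg_right (h1 x) (norm_nonneg _))) h9 (norm_nonneg _) (by positivity))
  have g4 := norm_add_le ((C'.An n x - C.An n x) * s * C'.inv.An n (C'.f^[n] x))
    (C.An n x * s * (C'.inv.An n (C'.f^[n] x) - C.inv.An n (C.f^[n] x)))
  have g5 : η * (R1 + R2 + 1) ≤ (1 - l0) / 2 := by
    have e1 : η ≤ (1 - l0) / (2 * (R1 + R2 + 1)) := min_le_right _ _
    have e2 : (1 - l0) / (2 * (R1 + R2 + 1)) * (R1 + R2 + 1) = (1 - l0) / 2 := by field_simp
    calc η * (R1 + R2 + 1) ≤ (1 - l0) / (2 * (R1 + R2 + 1)) * (R1 + R2 + 1) :=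
          mul_le_mul_of_nonneg_right e1 (by positivity)
      _ = _ := e2
  have g6 : η * ‖s‖ * (R2 + 1) + R1 * ‖s‖ * η ≤ (1 - l0) / 2 * ‖s‖ := by
    have e1 := mul_le_mul_of_nonneg_right g5 (norm_nonneg s)
    calc η * ‖s‖ * (R2 + 1) + R1 * ‖s‖ * η = η * (R1 + R2 + 1) * ‖s‖ := by ring
      _ ≤ _ := e1
  calc ‖C.An n x * s * C.inv.An n (C.f^[n] x)‖ +
        ‖(C'.An n x - C.An n x) * s * C'.inv.An n (C'.f^[n] x) +
        C.An n x * s * (C'.inv.An n (C'.f^[n] x) - C.inv.An n (C.f^[n] x))‖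
      ≤ l0 * ‖s‖ + (1 - l0) / 2 * ‖s‖ := by linarith
    _ = (l0 + 1) / 2 * ‖s‖ := by ring

end Pool.Agent.Helper39.RZ
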