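import Pool.Agent.Helper56.RZ.GoalsC
import Pool.Agent.Helper64.RZ.A1

/-! # Packet RZ2-DN: domination of the iterates -/

set_option autoImplicit false

open Set Filter Topology

namespace Pool.Agent.Helper39.RZ

open Pool.Agent.Helper56.RZ
open Pool.Agent.Helper64.RZ

section comp
variable {X : Type} [MetricSpace X] [CompactSpace X] {K : ℕ} {C : Coc X K}
  {P : Fin 3 → X → End K}

/-- uniform contraction of a subbundle -/
theorem unifc (h : Spl C P) {n : ℕ} {i : Fin 3}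
    (hD : ∀ x v, P i x v = v → v ≠ 0 → ‖C.An n x v‖ < ‖v‖) :
    ∃ q : ℝ, 0 < q ∧ q < 1 ∧ ∀ x v, P i x v = v → ‖C.An n x v‖ ≤ q * ‖v‖ := by
  set S : Set (X × E K) := {p | P i p.1 p.2 = p.2 ∧ ‖p.2‖ = 1} with hS
  have hcP : Continuous fun p : X × E K => P i p.1 p.2 :=
    ((h.cont i).comp continuous_fst).clm_apply continuous_snd
  have hcl : IsClosed S := by
    refine IsClosed.inter (s₁ := {p : X × E K | P i p.1 p.2 = p.2}) ?_ ?_
    · exact isClosed_eq hcP (by fun_prop)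
    · exact isClosed_eq (by fun_prop) continuous_const
  have hcomp : IsCompact S := by
    refine IsCompact.of_isClosed_subset
      (isCompact_univ.prod (isCompact_closedBall (0 : E K) 1)) hcl ?_
    rintro ⟨x, v⟩ ⟨-, h1⟩
    exact ⟨mem_univ _, by simpa using h1.le⟩
  have hcA : Continuous fun p : X × E K => ‖C.An n p.1 p.2‖ :=
    (((An_cont C n).comp continuous_fst).clm_apply continuous_snd).norm
  have key : ∃ q : ℝ, 0 < q ∧ q < 1 ∧ ∀ p ∈ S, ‖C.An n p.1 p.2‖ ≤ q := by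
    rcases S.eq_empty_or_nonempty with he | hne
    · exact ⟨1 / 2, by norm_num, by norm_num, by rw [he]; simp⟩
    · obtain ⟨p0, hp0, hmax⟩ := hcomp.exists_isMaxOn hne hcA.continuousOn
      have hq01 : ‖C.An n p0.1 p0.2‖ < 1 := by
        have h1 := hD p0.1 p0.2 hp0.1 (by
          intro h0
          have h2 := hp0.2
          rw [h0] at h2
          simp at h2)
        rw [hp0.2] at h1
        exact h1
      refine ⟨max ‖C.An n p0.1 p0.2‖ (1 / 2), lt_max_of_lt_right (by norm_num),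
        max_lt hq01 (by norm_num), ?_⟩
      intro p hp
      exact (hmax hp : _ ≤ _).trans (le_max_left _ _)
  obtain ⟨q, hq0, hq1, hq⟩ := key
  refine ⟨q, hq0, hq1, fun x v hv => ?_⟩
  by_cases hv0 : v = 0
  · simp [hv0]
  have hvn : 0 < ‖v‖ := norm_pos_iff.2 hv0
  have h1 := hq (x, ‖v‖⁻¹ • v) ⟨unit_fix hv _,
    by change ‖‖v‖⁻¹ • v‖ = 1; rw [norm_smul, norm_inv, norm_norm]; field_simp⟩
  simp only at h1
  rw [map_smul, norm_smul, norm_inv, norm_norm] at h1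
  have h2 := mul_le_mul_of_nonneg_right h1 hvn.le
  have e1 : ‖v‖⁻¹ * ‖C.An n x v‖ * ‖v‖ = ‖C.An n x v‖ := by field_simp
  rwa [e1] at h2

theorem iterc (h : Spl C P) {n : ℕ} {i : Fin 3} {q : ℝ} (hq0 : 0 < q)
    (hq : ∀ x v, P i x v = v → ‖C.An n x v‖ ≤ q * ‖v‖) (k : ℕ) :
    ∀ x v, P i x v = v → ‖C.An (k * n) x v‖ ≤ q ^ k * ‖v‖ := by
  induction k with
  | zero =>
    intro x v hv
    rw [Nat.zero_mul]
    change ‖C.T x v‖ ≤ q ^ 0 * ‖v‖
    rw [T_fix h hv, pow_zero, one_mul]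
  | succ k ih =>
    intro x v hv
    have e : C.An ((k + 1) * n) x v = C.An n (C.f^[k * n] x) (C.An (k * n) x v) := by
      rw [Nat.succ_mul, Nat.add_comm, An_add]
      rfl
    rw [e]
    have h1 := hq (C.f^[k * n] x) _ (fix_An h hv (k * n))
    have h2 := ih x v hv
    calc ‖C.An n (C.f^[k * n] x) (C.An (k * n) x v)‖ ≤ q * ‖C.An (k * n) x v‖ := h1
      _ ≤ q * (q ^ k * ‖v‖) := mul_le_mul_of_nonneg_left h2 hq0.le
      _ = q ^ (k + 1) * ‖v‖ := by ring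

theorem proj_fix (h : Spl C P) (i : Fin 3) (x : X) (z : E K) : P i x (P i x z) = P i x z := by
  have := congrArg (fun L : End K => L z) (h.proj x i i)
  simpa using this

/-- contraction of the iterates, in operator norm -/
theorem opc (h : Spl C P) {n : ℕ} {i : Fin 3} {M : ℝ} (hM : ∀ i x, ‖P i x‖ ≤ M)
    (hD : ∀ x v, P i x v = v → v ≠ 0 → ‖C.An n x v‖ < ‖v‖) :
    ∃ q : ℝ, 0 < q ∧ q < 1 ∧ ∀ (k : ℕ) (x : X), ‖C.An (k * n) x * P i x‖ ≤ M * q ^ k := by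
  obtain ⟨q, hq0, hq1, hq⟩ := unifc h hD
  refine ⟨q, hq0, hq1, fun k x => ?_⟩
  have hit := iterc h hq0 hq k
  have hM0 : 0 ≤ M := (norm_nonneg _).trans (hM i x)
  refine ContinuousLinearMap.opNorm_le_bound _ (by positivity) fun u => ?_
  have h1 := hit x _ (proj_fix h i x u)
  have h2 : ‖P i x u‖ ≤ M * ‖u‖ :=
    ((P i x).le_opNorm u).trans (mul_le_mul_of_nonneg_right (hM i x) (norm_nonneg _))
  change ‖C.An (k * n) x (P i x u)‖ ≤ _
  calc ‖C.An (k * n) x (P i x u)‖ ≤ q ^ k * ‖P i x u‖ := h1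
    _ ≤ q ^ k * (M * ‖u‖) := mul_le_mul_of_nonneg_left h2 (by positivity)
    _ = M * q ^ k * ‖u‖ := by ring

/-- domination of the iterates, in operator norm -/
theorem opd (h : Spl C P) {n : ℕ} {i j : Fin 3} {M : ℝ} (hM : ∀ i x, ‖P i x‖ ≤ M)
    (hD : Dm C P n i j) :
    ∃ q : ℝ, 0 < q ∧ q < 1 ∧ ∀ (k : ℕ) (x : X), ‖C.An (k * n) x * P i x‖ *
      ‖C.inv.An (k * n) (C.f^[k * n] x) * P j (C.f^[k * n] x)‖ ≤ M ^ 2 * q ^ k := by
  obtain ⟨q, hq0, hq1, hq⟩ := unif h hD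
  refine ⟨q, hq0, hq1, fun k x => ?_⟩
  have hit := iter h hq0 hq k
  have hM0 : 0 ≤ M := (norm_nonneg _).trans (hM i x)
  set m := k * n with hm
  have key : ∀ u u' : E K, ‖(C.An m x * P i x) u‖ *
      ‖(C.inv.An m (C.f^[m] x) * P j (C.f^[m] x)) u'‖ ≤ M ^ 2 * q ^ k * ‖u‖ * ‖u'‖ := by
    intro u u'
    change ‖C.An m x (P i x u)‖ * ‖C.inv.An m (C.f^[m] x) (P j (C.f^[m] x) u')‖ ≤ _
    have hs := spl_inv h
    have hv : P j x (C.inv.An m (C.f^[m] x) (P j (C.f^[m] x) u')) =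
        C.inv.An m (C.f^[m] x) (P j (C.f^[m] x) u') := by
      have h1 := fix_An hs (proj_fix h j (C.f^[m] x) u') m
      rw [f_inv] at h1
      exact h1
    have hAv : C.An m x (C.inv.An m (C.f^[m] x) (P j (C.f^[m] x) u')) =
        P j (C.f^[m] x) u' := by
      have h2 := congrArg (fun L : End K => L (P j (C.f^[m] x) u')) (An_inv C m x)
      simp only [ContinuousLinearMap.mul_apply] at h2
      rw [h2]
      exact T_fix h (proj_fix h j (C.f^[m] x) u')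
    have h1 := hit x _ _ (proj_fix h i x u) hv
    rw [hAv] at h1
    have h3 : ‖P i x u‖ ≤ M * ‖u‖ :=
      ((P i x).le_opNorm u).trans (mul_le_mul_of_nonneg_right (hM i x) (norm_nonneg _))
    have h4 : ‖P j (C.f^[m] x) u'‖ ≤ M * ‖u'‖ :=
      ((P j (C.f^[m] x)).le_opNorm u').trans
        (mul_le_mul_of_nonneg_right (hM j _) (norm_nonneg _))
    refine h1.trans ?_
    calc q ^ k * ‖P j (C.f^[m] x) u'‖ * ‖P i x u‖ ≤ q ^ k * (M * ‖u'‖) * (M * ‖u‖) := by gcongr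
      _ = M ^ 2 * q ^ k * ‖u‖ * ‖u'‖ := by ring
  set L1 := C.An m x * P i x with hL1
  set L2 := C.inv.An m (C.f^[m] x) * P j (C.f^[m] x) with hL2
  have hc : 0 ≤ M ^ 2 * q ^ k := by positivity
  by_cases h2 : ‖L2‖ = 0
  · rw [h2, mul_zero]
    exact hc
  have h2p : 0 < ‖L2‖ := lt_of_le_of_ne (norm_nonneg _) (Ne.symm h2)
  rw [mul_comm, ← le_div_iff₀' h2p]
  refine ContinuousLinearMap.opNorm_le_bound _ (by positivity) fun u => ?_
  rw [div_mul_eq_mul_div, le_div_iff₀ h2p]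
  by_cases h1 : ‖L1 u‖ = 0
  · rw [h1, zero_mul]
    positivity
  have h1p : 0 < ‖L1 u‖ := lt_of_le_of_ne (norm_nonneg _) (Ne.symm h1)
  rw [← le_div_iff₀' h1p]
  refine ContinuousLinearMap.opNorm_le_bound _ (by positivity) fun u' => ?_
  rw [div_mul_eq_mul_div, le_div_iff₀ h1p, mul_comm]
  exact key u u'

end comp

theorem dn : StmtDN := by
  intro X _ _ K C P n hS hD
  obtain ⟨-, hD⟩ := hD
  have d01 : Dm C P n 0 1 := fun x v w hw hv hw1 hv1 => (hD x).2.2.1 w v hw hv hw1 hv1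
  have d12 : Dm C P n 1 2 := fun x v w hw hv hw1 hv1 => (hD x).2.2.2 w v hw hv hw1 hv1
  have d02 : Dm C P n 0 2 := dm_trans hS d01 d12
  obtain ⟨M, hM1, hM⟩ := bound hS
  obtain ⟨q1, a1, b1, c1⟩ := opc hS (i := 0) hM (fun x v => (hD x).1 v)
  obtain ⟨q2, a2, b2, c2⟩ := opc (spl_inv hS) (i := 2) hM (fun x v => (hD x).2.1 v)
  obtain ⟨q3, a3, b3, c3⟩ := opd hS hM d01
  obtain ⟨q4, a4, b4, c4⟩ := opd hS hM d12
  obtain ⟨q5, a5, b5, c5⟩ := opd hS hM d02
  obtain ⟨q, hq0, hq1, e1, e2, e3, e4, e5⟩ : ∃ q : ℝ, 0 < q ∧ q < 1 ∧ q1 ≤ q ∧ q2 ≤ q ∧ q3 ≤ q ∧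
      q4 ≤ q ∧ q5 ≤ q := by
    refine ⟨max q1 (max q2 (max q3 (max q4 q5))), lt_max_of_lt_left a1,
      max_lt b1 (max_lt b2 (max_lt b3 (max_lt b4 b5))), ?_, ?_, ?_, ?_, ?_⟩ <;> simp
  have hMM : M ≤ M ^ 2 := by nlinarith
  have hM2 : 0 ≤ M ^ 2 := by positivity
  have hM0 : 0 ≤ M := by linarith
  refine ⟨q, M ^ 2, hq0, hq1, by nlinarith, fun k x => ⟨?_, ?_, ?_⟩⟩
  · exact (c1 k x).trans (mul_le_mul hMM (pow_le_pow_left₀ a1.le e1 k) (by positivity) hM2)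
  · exact (c2 k x).trans (mul_le_mul hMM (pow_le_pow_left₀ a2.le e2 k) (by positivity) hM2)
  · intro i j hij
    have f3 := (c3 k x).trans (mul_le_mul_of_nonneg_left (pow_le_pow_left₀ a3.le e3 k) hM2)
    have f4 := (c4 k x).trans (mul_le_mul_of_nonneg_left (pow_le_pow_left₀ a4.le e4 k) hM2)
    have f5 := (c5 k x).trans (mul_le_mul_of_nonneg_left (pow_le_pow_left₀ a5.le e5 k) hM2)
    fin_cases i <;> fin_cases j
    · exact absurd hij (by decide)
    · exact f3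
    · exact f5
    · exact absurd hij (by decide)
    · exact absurd hij (by decide)
    · exact f4
    · exact absurd hij (by decide)
    · exact absurd hij (by decide)
    · exact absurd hij (by decide)

end Pool.Agent.Helper39.RZ
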