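import Pool.Agent.Helper56.RZ.GoalsB

/-!
# Project RZ (MP_f32c9c_an), packet G5
-/

set_option autoImplicit false

open Set Filter Topology MeasureTheory

open scoped ContDiff

namespace Pool.Agent.Helper39.RZ

open Pool.Agent.Helper56.RZ

theorem norm_Pi_le {K : ℕ} (M : Set (E K)) (x : E K) : ‖Pi M x‖ ≤ 1 :=
  Submodule.starProjection_norm_le _

/-- the derivative of a map of the form `id + w` -/
theorem der_add (hT2 : StmtT2) {K : ℕ} {M : Set (E K)} {h w : E K → E K} (hw : ContDiff ℝ ∞ w)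
    (hx : ∀ x ∈ M, h x = x + w x) {x : E K} (hxM : x ∈ M) :
    der M h x - Pi M x = fderiv ℝ w x * Pi M x := by
  have h1 : HasFDerivWithinAt h (1 + fderiv ℝ w x : End K) M x := by
    have h2 : HasFDerivAt (fun y => y + w y) (1 + fderiv ℝ w x : End K) x := by
      have h3 : DifferentiableAt ℝ w x := (hw.differentiable (by simp)) x
      exact (hasFDerivAt_id x).add h3.hasFDerivAt
    exact h2.hasFDerivWithinAt.congr (fun y hy => hx y hy) (hx x hxM)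
  have h4 := (hT2 K M h h x hxM).1 _ h1
  rw [← h4, add_mul, one_mul]
  abel

theorem small_of (hT2 : StmtT2) {K : ℕ} {M : Set (E K)} {h w : E K → E K} (hw : ContDiff ℝ ∞ w)
    (hx : ∀ x ∈ M, h x = x + w x) {δ : ℝ}
    (h0 : ∀ x, ‖iteratedFDeriv ℝ 0 w x‖ ≤ δ) (h1 : ∀ x, ‖iteratedFDeriv ℝ 1 w x‖ ≤ δ)
    {x : E K} (hxM : x ∈ M) : dist (h x) x ≤ δ ∧ ‖der M h x - Pi M x‖ ≤ δ := by
  refine ⟨?_, ?_⟩
  · rw [dist_eq_norm, hx x hxM, add_sub_cancel_left, ← norm_iteratedFDeriv_zero (𝕜 := ℝ)]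
    exact h0 x
  · rw [der_add hT2 hw hx hxM]
    refine (norm_mul_le _ _).trans ?_
    have h2 : ‖fderiv ℝ w x‖ ≤ δ := by
      rw [← norm_iteratedFDeriv_one]
      exact h1 x
    calc ‖fderiv ℝ w x‖ * ‖Pi M x‖ ≤ ‖fderiv ℝ w x‖ * 1 :=
          mul_le_mul_of_nonneg_left (norm_Pi_le M x) (norm_nonneg _)
      _ ≤ δ := by rw [mul_one]; exact h2

theorem g5 (hG1 : StmtG1) (hG2 : StmtG2) (hT2 : StmtT2) (hT4 : StmtT4) : StmtG5 := by
  intro N K r a M c p hPi hp d z0 hz0 hr ha ha1 δ hδ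
  obtain ⟨C, ρ0, hC, hρ0, hρ01, h2⟩ := hG2 N K r M c p hp d z0 hz0
  have hCpos : 0 < C := by linarith
  refine ⟨min ρ0 (δ / C), lt_min hρ0 (div_pos hδ hCpos), fun ρ hρ hρ1 => ?_⟩
  have e1 : ρ ≤ ρ0 := hρ1.trans (min_le_left _ _)
  have e2 : ρ ≤ δ / C := hρ1.trans (min_le_right _ _)
  have e3 : ρ ≤ 1 := e1.trans hρ01
  have e4 : C * ρ ≤ δ := by
    rw [le_div_iff₀ hCpos] at e2
    linarith
  set t : ℝ := a * ρ ^ (r - 1) with ht
  have ht0 : 0 < t := mul_pos ha (pow_pos hρ _)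
  have ht1 : t ≤ ρ := by
    have h3 : ρ ^ (r - 1) ≤ ρ ^ 1 := pow_le_pow_of_le_one hρ.le e3 (by omega)
    rw [pow_one] at h3
    calc t = a * ρ ^ (r - 1) := ht
      _ ≤ 1 * ρ := mul_le_mul ha1 h3 (pow_pos hρ _).le zero_le_one
      _ = ρ := one_mul _
  have hta : |t| ≤ 1 := by rw [abs_of_pos ht0]; linarith
  have htb : |-t| ≤ 1 := by rw [abs_neg]; exact hta
  obtain ⟨hfit, w, hw, hwx, hwk⟩ := h2 ρ t hρ e1 hta
  obtain ⟨_, w', hw', hwx', hwk'⟩ := h2 ρ (-t) hρ e1 htb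
  obtain ⟨g1, _, g3, _⟩ := hG1 N K M c p hp d z0 ρ hρ hfit t
  have hdiff : IsDiffeo 1 M (hM c d z0 ρ t) (hM c d z0 ρ (-t)) :=
    ⟨g1.maps, g1.maps', g1.left, g1.right, g1.smooth.of_le (by simp),
      g1.smooth'.of_le (by simp)⟩
  obtain ⟨H, hH⟩ := hT4 K M _ _ hPi hdiff
  have b0 : C * |t| * ρ * (ρ⁻¹) ^ 0 ≤ δ := by
    rw [pow_zero, mul_one, abs_of_pos ht0]
    calc C * t * ρ ≤ C * ρ * 1 := by
          apply mul_le_mul (mul_le_mul_of_nonneg_left ht1 hCpos.le) e3 hρ.le (by positivity)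
      _ ≤ δ := by rw [mul_one]; exact e4
  have b1 : C * |t| * ρ * (ρ⁻¹) ^ 1 ≤ δ := by
    rw [pow_one, abs_of_pos ht0, mul_assoc, mul_inv_cancel₀ hρ.ne', mul_one]
    calc C * t ≤ C * ρ := mul_le_mul_of_nonneg_left ht1 hCpos.le
      _ ≤ δ := e4
  have s1 : ∀ x ∈ M, dist (hM c d z0 ρ t x) x ≤ δ ∧ ‖der M (hM c d z0 ρ t) x - Pi M x‖ ≤ δ :=
    fun x hx => small_of hT2 hw hwx (fun y => (hwk 0 (by omega) y).trans b0)
      (fun y => (hwk 1 (by omega) y).trans b1) hx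
  have s2 : ∀ x ∈ M, dist (hM c d z0 ρ (-t) x) x ≤ δ ∧
      ‖der M (hM c d z0 ρ (-t)) x - Pi M x‖ ≤ δ :=
    fun x hx => small_of hT2 hw' hwx'
      (fun y => (hwk' 0 (by omega) y).trans (by rw [abs_neg]; exact b0))
      (fun y => (hwk' 1 (by omega) y).trans (by rw [abs_neg]; exact b1)) hx
  have n1 : Near H δ := by
    intro x
    refine ⟨?_, ?_, ?_⟩
    · rw [Subtype.dist_eq, hH.rf]
      exact (s1 x x.2).1
    · rw [hH.rA, hH.rT]
      exact (s1 x x.2).2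
    · rw [hH.rB, hH.rT]
      exact (s2 x x.2).2
  have n2 : Near H.inv δ := by
    intro x
    refine ⟨?_, ?_, ?_⟩
    · change dist (H.f.symm x) x ≤ δ
      rw [Subtype.dist_eq, hH.rf']
      exact (s2 x x.2).1
    · change ‖H.B x - H.T x‖ ≤ δ
      rw [hH.rB, hH.rT]
      exact (s2 x x.2).2
    · change ‖H.A x - H.T x‖ ≤ δ
      rw [hH.rA, hH.rT]
      exact (s1 x x.2).2
  refine ⟨H, hH, n1, n2, fun x hx => ?_⟩
  obtain ⟨g4, g5⟩ := g3 x x.2 hx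
  refine ⟨?_, ?_⟩
  · apply Subtype.ext
    rw [hH.rf, g4]
  · rw [hH.rA, hH.rT, g5]

end Pool.Agent.Helper39.RZ
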